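import Mathlib

/-! MP_98cb65_gt, Q2: a locally connected continuum without property (F), namely the countable
product of circles. -/

open Topology Set

namespace Pool.Agent.Results.MP_98cb65_gt.InfiniteTorus

/-- The self-map `T` of the metric space `X` has iterate displacement below `B`:
`d(T^ν(x), x) < B` for all `x` and all `ν ≥ 1`. -/
def IterateDisplacementBelow {X : Type} [MetricSpace X] (T : X → X) (B : ℝ) : Prop :=
  ∀ x : X, ∀ ν : ℕ, 1 ≤ ν → dist (T^[ν] x) x < B

/-- Property (F): there is `B > 0` such that every continuous self-map with iterate displacement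
below `B` has a fixed point. -/
def PropertyF (X : Type) [MetricSpace X] : Prop :=
  ∃ B : ℝ, 0 < B ∧ ∀ T : X → X, Continuous T → IterateDisplacementBelow T B → ∃ x, T x = x

/-- Half rotation of the `n`-th coordinate of the infinite torus. -/
noncomputable def rot (n : ℕ) (x : ℕ → Circle) : ℕ → Circle := Function.update x n (-x n)

lemma continuous_rot (n : ℕ) : Continuous (rot n) := by
  unfold rot
  exact continuous_id.update n ((continuous_apply n).neg)

lemma rot_rot (n : ℕ) (x : ℕ → Circle) : rot n (rot n x) = x := by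
  ext i
  by_cases h : i = n
  · subst h; simp [rot]
  · simp [rot, h]

lemma rot_ne (n : ℕ) (x : ℕ → Circle) : rot n x ≠ x := by
  intro h
  have h1 := congrFun h n
  simp only [rot, Function.update_self] at h1
  have h2 : (((-x n : Circle)) : ℂ) = (x n : ℂ) := by rw [h1]
  have h3 : ((-x n : Circle) : ℂ) = -(x n : ℂ) := rfl
  rw [h3] at h2
  have h4 : (x n : ℂ) = 0 := by
    have := neg_eq_self.mp h2
    exact this
  exact Circle.coe_ne_zero (x n) h4

lemma rot_iterate (n ν : ℕ) (x : ℕ → Circle) : (rot n)^[ν] x = x ∨ (rot n)^[ν] x = rot n x := by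
  induction ν with
  | zero => left; rfl
  | succ k ih =>
    rw [Function.iterate_succ_apply']
    rcases ih with h | h
    · right; rw [h]
    · left; rw [h, rot_rot]

/-- For every compatible metric, half rotations of far coordinates move points little. -/
lemma rot_small (m : MetricSpace (ℕ → Circle))
    (hm : m.toPseudoMetricSpace.toUniformSpace.toTopologicalSpace = Pi.topologicalSpace)
    (B : ℝ) (hB : 0 < B) : ∃ n : ℕ, ∀ x : ℕ → Circle, m.dist (rot n x) x < B := by
  have hu : m.toPseudoMetricSpace.toUniformSpace = Pi.uniformSpace (fun _ : ℕ => Circle) := by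
    refine @unique_uniformity_of_compact (ℕ → Circle) Pi.topologicalSpace inferInstance _ _ hm rfl
  have h1 : {p : (ℕ → Circle) × (ℕ → Circle) | m.dist p.1 p.2 < B} ∈
      @uniformity _ m.toPseudoMetricSpace.toUniformSpace := by
    let _ := m
    exact Metric.dist_mem_uniformity hB
  rw [hu, Pi.uniformity] at h1
  rw [Filter.mem_iInf] at h1
  obtain ⟨I, hI, V, hV, hVeq⟩ := h1
  obtain ⟨n, hn⟩ := hI.infinite_compl.nonempty
  refine ⟨n, fun x => ?_⟩
  have : ((rot n x, x) : (ℕ → Circle) × (ℕ → Circle)) ∈
      {p : (ℕ → Circle) × (ℕ → Circle) | m.dist p.1 p.2 < B} := by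
    rw [hVeq]
    refine mem_iInter.mpr fun i => ?_
    have hi := hV i
    rw [Filter.mem_comap] at hi
    obtain ⟨W, hW, hWs⟩ := hi
    apply hWs
    have hne : (i : ℕ) ≠ n := fun h => hn (h ▸ i.2)
    show (rot n x i, x i) ∈ W
    have : rot n x i = x i := by simp [rot, hne]
    rw [this]
    exact refl_mem_uniformity hW
  exact this

/-- The infinite torus `X = (S¹)^ℕ` is a locally connected continuum, and for every metric
compatible with its topology and every `B > 0` there is a homeomorphism `T` of `X`, with
`T ∘ T = id`, all of whose iterates move every point by less than `B`, without a fixed point. In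
particular `X` does not have property (F), for any compatible metric. -/
theorem result :
    CompactSpace (ℕ → Circle) ∧ ConnectedSpace (ℕ → Circle) ∧
    LocallyConnectedSpace (ℕ → Circle) ∧ TopologicalSpace.MetrizableSpace (ℕ → Circle) ∧
    ∀ m : MetricSpace (ℕ → Circle),
      m.toPseudoMetricSpace.toUniformSpace.toTopologicalSpace = Pi.topologicalSpace →
      (∀ B : ℝ, 0 < B → ∃ T : (ℕ → Circle) ≃ₜ (ℕ → Circle), (∀ x, T (T x) = x) ∧
        @IterateDisplacementBelow (ℕ → Circle) m T B ∧ ∀ x, T x ≠ x) ∧
      ¬ @PropertyF (ℕ → Circle) m := by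
  have hlc : LocallyConnectedSpace Circle :=
    ChartedSpace.locallyConnectedSpace (EuclideanSpace ℝ (Fin 1)) Circle
  refine ⟨inferInstance, inferInstance, inferInstance, inferInstance, fun m hm => ?_⟩
  have key : ∀ B : ℝ, 0 < B → ∃ n : ℕ,
      @IterateDisplacementBelow (ℕ → Circle) m (rot n) B := by
    intro B hB
    obtain ⟨n, hn⟩ := rot_small m hm B hB
    refine ⟨n, fun x ν _ => ?_⟩
    rcases rot_iterate n ν x with h | h
    · rw [h]
      have : m.dist x x = 0 := m.dist_self x
      exact this ▸ hB
    · rw [h]; exact hn x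
  refine ⟨fun B hB => ?_, ?_⟩
  · obtain ⟨n, hn⟩ := key B hB
    refine ⟨⟨⟨rot n, rot n, rot_rot n, rot_rot n⟩, continuous_rot n, continuous_rot n⟩,
      rot_rot n, hn, rot_ne n⟩
  · rintro ⟨B, hB, h⟩
    obtain ⟨n, hn⟩ := key B hB
    have hc : @Continuous _ _ m.toPseudoMetricSpace.toUniformSpace.toTopologicalSpace
        m.toPseudoMetricSpace.toUniformSpace.toTopologicalSpace (rot n) := by
      rw [hm]; exact continuous_rot n
    obtain ⟨x, hx⟩ := h (rot n) hc hn
    exact rot_ne n x hx

end Pool.Agent.Results.MP_98cb65_gt.InfiniteTorus
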